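import Pool.Agent.Hhelper49.CWD.Final
import Pool.Agent.Hhelper49.CWE.AlmostAsym
import Pool.Agent.Hhelper49.CWE.Tour

set_option autoImplicit false

namespace Pool.Agent.Results.MP_55ffcb_co.BoundedFactor

/-- Approximate monotonicity. First part: if `w₁ ≤ (1/4 - ε) n` and `w₂ ≥ w₁ + k₀(ε)`, then every
code of weight `w₁` and distance `d` can be matched by a code of weight `w₂` and distance `d` up to
a fraction of its words which is exponentially small in `w₂ - w₁`, uniformly in `n` and `d`.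
Second part, for all parameters: for `1 ≤ w₁ < w₂ ≤ n/2` and every `d ≥ 1` a code
`C` of weight `w₁` yields a code `C'` of weight `w₂` with the same distance and
`(1 - 4w₁/n)² |C| ≤ |C'|` (if `w₁ ≤ n/4`),
`|C| ≤ (4/3 + 9 √((w₂-w₁) w₁/(n-2w₁))) |C'|`, `|C| ≤ 4 √w₁ |C'|`, and
`|C| - |C'| ≤ (w₂-w₁) ⌊|C| (2 m w₁/n)^(j+1)⌋` for all `j ≥ 1`, where `m = j + 4j² 2^j`.
Third part: a map `g` on a family `F` of traces on `k` points which raises the weights by `w₂ - w₁`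
and does not decrease the distances yields a `C'` with
`|C| ∑_(s ∈ F) binom(n-k, w₁-|s|) ≤ binom(n, w₁) |C'|`. Fourth part, consecutive weights:
`(n-w₁)(n-w₁-1)(n+2w₁-2) |C| ≤ n(n-1)(n-2) |C'|`. -/
theorem result :
    (∀ ε : ℝ, 0 < ε → ε ≤ 1 → ∃ k₀ : ℕ, ∀ n d w₁ w₂ : ℕ, 1 ≤ d →
      (w₁ : ℝ) ≤ (1 / 4 - ε) * n → w₁ + k₀ ≤ w₂ → 2 * w₂ ≤ n →
      ∀ C : Finset (Finset (Fin n)),
        (∀ s ∈ C, s.card = w₁) →
        (∀ s ∈ C, ∀ t ∈ C, s ≠ t → d ≤ (symmDiff s t).card) →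
        ∃ C' : Finset (Finset (Fin n)),
          (C.card : ℝ) * (1 - Real.exp (-(ε ^ 2 * ((w₂ : ℝ) - w₁) / 16))) ≤ C'.card ∧
          C'.card ≤ C.card ∧
          (∀ s ∈ C', s.card = w₂) ∧
          (∀ s ∈ C', ∀ t ∈ C', s ≠ t → d ≤ (symmDiff s t).card)) ∧
    (∀ n d w₁ w₂ : ℕ, 1 ≤ d → 1 ≤ w₁ → w₁ < w₂ → 2 * w₂ ≤ n →
      ∀ C : Finset (Finset (Fin n)),
        (∀ s ∈ C, s.card = w₁) →
        (∀ s ∈ C, ∀ t ∈ C, s ≠ t → d ≤ (symmDiff s t).card) →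
        ∃ C' : Finset (Finset (Fin n)),
          (∀ s ∈ C', s.card = w₂) ∧
          (∀ s ∈ C', ∀ t ∈ C', s ≠ t → d ≤ (symmDiff s t).card) ∧
          (4 * w₁ ≤ n → ((n : ℝ) - 4 * w₁) ^ 2 * (C.card : ℝ) ≤ (n : ℝ) ^ 2 * (C'.card : ℝ)) ∧
          ((C.card : ℝ) ≤
            (4 / 3 + 9 * √(((w₂ : ℝ) - w₁) * w₁ / (n - 2 * w₁))) * (C'.card : ℝ)) ∧
          ((C.card : ℝ) ≤ 4 * √(w₁ : ℝ) * (C'.card : ℝ)) ∧
          (∀ j : ℕ, 1 ≤ j → C.card ≤ C'.card + (w₂ - w₁) *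
            (C.card * (2 * (j + 4 * j ^ 2 * 2 ^ j) * w₁) ^ (j + 1) / n ^ (j + 1)))) ∧
    (∀ n d w₁ w₂ k : ℕ, 1 ≤ d → w₁ ≤ w₂ → k ≤ n →
      ∀ (F : Finset (Finset (Fin k))) (g : Finset (Fin k) → Finset (Fin k)),
        (∀ s ∈ F, s.card ≤ w₁ ∧ (g s).card = s.card + (w₂ - w₁)) →
        (∀ s ∈ F, ∀ t ∈ F, (symmDiff s t).card ≤ (symmDiff (g s) (g t)).card) →
      ∀ C : Finset (Finset (Fin n)),
        (∀ s ∈ C, s.card = w₁) →
        (∀ s ∈ C, ∀ t ∈ C, s ≠ t → d ≤ (symmDiff s t).card) →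
        ∃ C' : Finset (Finset (Fin n)),
          C.card * (∑ s ∈ F, (n - k).choose (w₁ - s.card)) ≤ C'.card * n.choose w₁ ∧
          C'.card ≤ C.card ∧
          (∀ s ∈ C', s.card = w₂) ∧
          (∀ s ∈ C', ∀ t ∈ C', s ≠ t → d ≤ (symmDiff s t).card)) ∧
    (∀ n d w : ℕ, 1 ≤ d → 2 * (w + 1) ≤ n →
      ∀ C : Finset (Finset (Fin n)),
        (∀ s ∈ C, s.card = w) →
        (∀ s ∈ C, ∀ t ∈ C, s ≠ t → d ≤ (symmDiff s t).card) →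
        ∃ C' : Finset (Finset (Fin n)),
          ((n : ℝ) - w) * (n - w - 1) * (n + 2 * w - 2) * (C.card : ℝ) ≤
            n * (n - 1) * (n - 2) * (C'.card : ℝ) ∧
          C'.card ≤ C.card ∧
          (∀ s ∈ C', s.card = w + 1) ∧
          (∀ s ∈ C', ∀ t ∈ C', s ≠ t → d ≤ (symmDiff s t).card)) :=
  ⟨fun ε hε hε1 => Pool.Agent.Hhelper49.CWE.almost_asym ε hε hε1,
    fun n d w₁ w₂ hd hw h12 hn C hC hD =>
      Pool.Agent.Hhelper49.CWD.approx n d w₁ w₂ hd hw h12 hn C hC hD,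
    fun n d w₁ w₂ k hd h12 hk F g hF hg C hC hD =>
      Pool.Agent.Hhelper49.CWE.traces n d w₁ w₂ k hd h12 hk F g hF hg C hC hD,
    fun n d w hd hn C hC hD => Pool.Agent.Hhelper49.CWE.three n d w hd hn C hC hD⟩

end Pool.Agent.Results.MP_55ffcb_co.BoundedFactor
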