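import Pool.Agent.Hhelper49.CWD.Final
import Pool.Agent.Hhelper49.CWE.All3

set_option autoImplicit false

namespace Pool.Agent.Results.MP_55ffcb_co.FarWeights

/-- `A(n,d,w₁) ≤ A(n,d,w₂)` for ALL distances `d` if `w₂` is sufficiently larger than `w₁`.
First part, for all `n`: if `w₂ ≥ 2w₁` and `n ≥ 8w₁ + 7`, or if `w₂ = w₁ + k ≤ 2w₁` and
`2^w₁ (5w₁)^k ≤ n^k`. Second part, for `ε > 0`, some `ζ(ε) > 0` and all `n ≥ n₀(ε)`: if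
`w₁ ≤ (1/4 - ε) n` and `(1-ζ) w₁ (n-w₁) (n-2w₁) ≤ n² (w₂-w₁)`. -/
theorem result :
    (∀ n d w₁ w₂ : ℕ, 1 ≤ d → w₁ < w₂ → 2 * w₂ ≤ n →
      (2 * w₁ ≤ w₂ ∧ 8 * w₁ + 7 ≤ n) ∨
        (w₂ ≤ 2 * w₁ ∧ 2 ^ w₁ * (5 * w₁) ^ (w₂ - w₁) ≤ n ^ (w₂ - w₁)) →
      ∀ C : Finset (Finset (Fin n)),
        (∀ s ∈ C, s.card = w₁) →
        (∀ s ∈ C, ∀ t ∈ C, s ≠ t → d ≤ (symmDiff s t).card) →
        ∃ C' : Finset (Finset (Fin n)),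
          C'.card = C.card ∧
          (∀ s ∈ C', s.card = w₂) ∧
          (∀ s ∈ C', ∀ t ∈ C', s ≠ t → d ≤ (symmDiff s t).card)) ∧
    (∀ ε : ℝ, 0 < ε → ∃ ζ : ℝ, 0 < ζ ∧ ∃ n₀ : ℕ, ∀ n : ℕ, n₀ ≤ n → ∀ d w₁ w₂ : ℕ,
      1 ≤ d → w₁ < w₂ → 2 * w₂ ≤ n → (w₁ : ℝ) ≤ (1 / 4 - ε) * n →
      (1 - ζ) * ((w₁ : ℝ) * ((n : ℝ) - w₁) * (n - 2 * w₁)) ≤ (n : ℝ) ^ 2 * ((w₂ : ℝ) - w₁) →
      ∀ C : Finset (Finset (Fin n)),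
        (∀ s ∈ C, s.card = w₁) →
        (∀ s ∈ C, ∀ t ∈ C, s ≠ t → d ≤ (symmDiff s t).card) →
        ∃ C' : Finset (Finset (Fin n)),
          C'.card = C.card ∧
          (∀ s ∈ C', s.card = w₂) ∧
          (∀ s ∈ C', ∀ t ∈ C', s ≠ t → d ≤ (symmDiff s t).card)) :=
  ⟨fun n d w₁ w₂ hd h12 hn h => Pool.Agent.Hhelper49.CWD.far n d w₁ w₂ hd h12 hn h,
    fun ε hε => Pool.Agent.Hhelper49.CWE.all_dist4 ε hε⟩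

end Pool.Agent.Results.MP_55ffcb_co.FarWeights
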