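import Pool.Agent.CWPR.Plotkin
import Pool.Agent.Hhelper49.CWE.FewGap
import Pool.Agent.Hhelper49.CWE.Near

set_option autoImplicit false

namespace Pool.Agent.Results.MP_55ffcb_co.PlotkinRange

/-- Monotonicity in the weight for codes with few words, in particular in the whole range above the
Plotkin line `d = 2 w₁ (n - w₁) / n` and in a range below it. Words are subsets of `Fin n`; the
Hamming distance is the size of the symmetric difference.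
First part: for every `M`, all `n ≥ n₀(M)`, all `d` and `w₁ < w₂ ≤ n/2`: a code with at most `M`
words of weight `w₁` and distances at least `d` can be matched in size by a code of weight `w₂`,
that is `min (A(n,d,w₁), M) ≤ A(n,d,w₂)`.
Second part: `A(n,d,w₁) ≤ A(n,d,w₂)` whenever `d ≥ (1+ε) 2 w₁ (n - w₁) / n` and `n ≥ n₀(ε)`.
Third part: the first part for `M = exp (c (w₂ - w₁))`, with `c = c(ε) > 0`, if
`w₁ ≤ (1/2 - ε) n` and `w₂ - w₁ ≥ k₀(ε)`.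
Fourth part: `A(n,d,w₁) ≤ A(n,d,w₂)` whenever `d ≥ (1-ζ) 2 w₁ (n - w₁) / n`, with
`ζ = ζ(ε) > 0`, if `w₂ - w₁ ≥ ε n` and `n ≥ n₀(ε)`. -/
theorem result :
    (∀ M : ℕ, ∃ n₀ : ℕ, ∀ n : ℕ, n₀ ≤ n → ∀ d w₁ w₂ : ℕ, w₁ < w₂ → 2 * w₂ ≤ n →
      ∀ C : Finset (Finset (Fin n)), C.card ≤ M →
        (∀ s ∈ C, s.card = w₁) →
        (∀ s ∈ C, ∀ t ∈ C, s ≠ t → d ≤ (symmDiff s t).card) →
        ∃ C' : Finset (Finset (Fin n)),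
          C'.card = C.card ∧
          (∀ s ∈ C', s.card = w₂) ∧
          (∀ s ∈ C', ∀ t ∈ C', s ≠ t → d ≤ (symmDiff s t).card)) ∧
    (∀ ε : ℝ, 0 < ε → ∃ n₀ : ℕ, ∀ n : ℕ, n₀ ≤ n → ∀ d w₁ w₂ : ℕ, w₁ < w₂ → 2 * w₂ ≤ n →
      (1 + ε) * (2 * w₁ * ((n : ℝ) - w₁)) ≤ d * n →
      ∀ C : Finset (Finset (Fin n)),
        (∀ s ∈ C, s.card = w₁) →
        (∀ s ∈ C, ∀ t ∈ C, s ≠ t → d ≤ (symmDiff s t).card) →
        ∃ C' : Finset (Finset (Fin n)),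
          C'.card = C.card ∧
          (∀ s ∈ C', s.card = w₂) ∧
          (∀ s ∈ C', ∀ t ∈ C', s ≠ t → d ≤ (symmDiff s t).card)) ∧
    (∀ ε : ℝ, 0 < ε → ε ≤ 1 → ∃ c : ℝ, 0 < c ∧ ∃ k₀ : ℕ, ∀ n d w₁ w₂ : ℕ, 1 ≤ d →
      (w₁ : ℝ) ≤ (1 / 2 - ε) * n → w₁ + k₀ ≤ w₂ → 2 * w₂ ≤ n →
      ∀ C : Finset (Finset (Fin n)), (C.card : ℝ) ≤ Real.exp (c * ((w₂ : ℝ) - w₁)) →
        (∀ s ∈ C, s.card = w₁) →
        (∀ s ∈ C, ∀ t ∈ C, s ≠ t → d ≤ (symmDiff s t).card) →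
        ∃ C' : Finset (Finset (Fin n)),
          C'.card = C.card ∧
          (∀ s ∈ C', s.card = w₂) ∧
          (∀ s ∈ C', ∀ t ∈ C', s ≠ t → d ≤ (symmDiff s t).card)) ∧
    (∀ ε : ℝ, 0 < ε → ε ≤ 1 → ∃ ζ : ℝ, 0 < ζ ∧ ∃ n₀ : ℕ, ∀ n : ℕ, n₀ ≤ n → ∀ d w₁ w₂ : ℕ,
      1 ≤ d → w₁ < w₂ → 2 * w₂ ≤ n → ε * n ≤ (w₂ : ℝ) - w₁ →
      (1 - ζ) * (2 * w₁ * ((n : ℝ) - w₁)) ≤ d * n →
      ∀ C : Finset (Finset (Fin n)),
        (∀ s ∈ C, s.card = w₁) →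
        (∀ s ∈ C, ∀ t ∈ C, s ≠ t → d ≤ (symmDiff s t).card) →
        ∃ C' : Finset (Finset (Fin n)),
          C'.card = C.card ∧
          (∀ s ∈ C', s.card = w₂) ∧
          (∀ s ∈ C', ∀ t ∈ C', s ≠ t → d ≤ (symmDiff s t).card)) :=
  ⟨CWPR.mono_few, CWPR.mono_plotkin, Pool.Agent.Hhelper49.CWE.few_gap,
    Pool.Agent.Hhelper49.CWE.near_plotkin⟩

end Pool.Agent.Results.MP_55ffcb_co.PlotkinRange
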