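import Pool.Agent.Hhelper49.CWD.Final
import Pool.Agent.Hhelper49.CWE.DoubleGap

set_option autoImplicit false

namespace Pool.Agent.Results.MP_55ffcb_co.SmallDistance

/-- `A(n,d,w₁) ≤ A(n,d,w₂)` for `w₁ < w₂ ≤ n/2` and distances `d` which are small compared with
`w₂ - w₁` (first three alternatives of the first part, with `r = ⌈d/2⌉ - 1`, and the second part),
or with `n/w₂` (fourth and fifth alternative). Second part: if `w₁ ≤ (1/4 - ε) n` and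
`w₂ - w₁ ≥ k₀(ε)`, then `(1+ε) d (n - 2w₁) ≤ 2 n (w₂ - w₁)` is sufficient. -/
theorem result :
    (∀ n d w₁ w₂ : ℕ, 1 ≤ d → w₁ < w₂ → 2 * w₂ ≤ n →
      ((∃ ε : ℝ, 0 < ε ∧ ε ≤ 1 ∧
        (1 + ε) * ((d : ℝ) * (n - 2 * w₁)) ≤ 2 * (((w₂ : ℝ) - w₁) * (n - w₁ - w₂)) ∧
        400000 * (n : ℝ) ^ 3 ≤ ε ^ 4 * (((w₂ : ℝ) - w₁) * (n - 2 * w₁) ^ 3)) ∨
      (4 * w₁ ≤ n ∧ d ≤ w₂ - w₁ ∧
        2 * n * (w₂ - w₁) * w₂ ≤ (w₂ - w₁ + 1 - d) * (n - 4 * w₁) ^ 2) ∨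
      (4 * ((d + 1) / 2 - 1)) ^ (((d + 1) / 2 - 1) * n) ≤ 2 ^ ((w₂ - w₁) * (n - w₁ - w₂)) ∨
      (d ≤ 4 ∧ 8 * w₂ ≤ 3 * n) ∨
      w₂ * 2 ^ d * ((d + 1) / 2 - 1).factorial ≤ n) →
      ∀ C : Finset (Finset (Fin n)),
        (∀ s ∈ C, s.card = w₁) →
        (∀ s ∈ C, ∀ t ∈ C, s ≠ t → d ≤ (symmDiff s t).card) →
        ∃ C' : Finset (Finset (Fin n)),
          C'.card = C.card ∧
          (∀ s ∈ C', s.card = w₂) ∧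
          (∀ s ∈ C', ∀ t ∈ C', s ≠ t → d ≤ (symmDiff s t).card)) ∧
    (∀ ε : ℝ, 0 < ε → ε ≤ 1 → ∃ k₀ : ℕ, ∀ n d w₁ w₂ : ℕ,
      1 ≤ d → w₁ + k₀ ≤ w₂ → 2 * w₂ ≤ n → (w₁ : ℝ) ≤ (1 / 4 - ε) * n →
      (1 + ε) * ((d : ℝ) * ((n : ℝ) - 2 * w₁)) ≤ 2 * (n : ℝ) * ((w₂ : ℝ) - w₁) →
      ∀ C : Finset (Finset (Fin n)),
        (∀ s ∈ C, s.card = w₁) →
        (∀ s ∈ C, ∀ t ∈ C, s ≠ t → d ≤ (symmDiff s t).card) →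
        ∃ C' : Finset (Finset (Fin n)),
          C'.card = C.card ∧
          (∀ s ∈ C', s.card = w₂) ∧
          (∀ s ∈ C', ∀ t ∈ C', s ≠ t → d ≤ (symmDiff s t).card)) :=
  ⟨fun n d w₁ w₂ hd h12 hn hs C hC hD =>
      Pool.Agent.Hhelper49.CWD.small n d w₁ w₂ hd h12 hn hs C hC hD,
    fun ε hε hε1 => Pool.Agent.Hhelper49.CWE.double_dist ε hε hε1⟩

end Pool.Agent.Results.MP_55ffcb_co.SmallDistance
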